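import Mathlib
import Pool.Agent.Run7.h404.FL.Iface

/-!
# Project FL, piece ALL: exact on one fibre implies exact on all fibres
-/

set_option autoImplicit false
set_option linter.unusedVariables false

namespace Run7.h116.FL

open Set Topology Filter Run7.h404.FL

section

variable {Q : Type} [MetricSpace Q] {p : E5 → Q}

/-- `FE` only depends on the restriction to the fibre -/
theorem FE.congr {c c' : E5 → E5 → ℝ} {q : Q} (h : FE p c q)
    (hc : ∀ y z, p y = q → p z = q → c y z = c' y z) : FE p c' q := by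
  obtain ⟨g, hK, hg⟩ := h
  refine ⟨g, hK, fun y hy => ?_⟩
  obtain ⟨U, hU, h⟩ := hg y hy
  exact ⟨U, hU, fun z hz w hw hz' hw' => by rw [← hc z w hz' hw']; exact h z hz w hw hz' hw'⟩

/-- linear combinations -/
theorem FE.lin {c c' : E5 → E5 → ℝ} {q : Q} (h : FE p c q) (h' : FE p c' q) (s t : ℝ) :
    FE p (fun y z => s * c y z + t * c' y z) q := by
  obtain ⟨g, ⟨K, hK, hgK⟩, hg⟩ := h
  obtain ⟨g', ⟨K', hK', hgK'⟩, hg'⟩ := h'
  refine ⟨fun y => s * g y + t * g' y, ⟨K ∪ K', hK.union hK', fun y hy hyK => ?_⟩, fun y hy => ?_⟩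
  · rw [mem_union, not_or] at hyK
    show s * g y + t * g' y = 0
    rw [hgK y hy hyK.1, hgK' y hy hyK.2]
    ring
  · obtain ⟨U, hU, h⟩ := hg y hy
    obtain ⟨U', hU', h'⟩ := hg' y hy
    refine ⟨U ∩ U', inter_mem hU hU', fun z hz w hw hz' hw' => ?_⟩
    show s * c z w + t * c' z w = (s * g w + t * g' w) - (s * g z + t * g' z)
    rw [h z hz.1 w hw.1 hz' hw', h' z hz.2 w hw.2 hz' hw']
    ring

theorem A2.diag {a : Q → Q → Q → ℝ} {q : Q} (h : A2 a q) : ∀ᶠ q' in 𝓝 q, a q q' q' = 0 := by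
  obtain ⟨U, hU, h⟩ := h
  filter_upwards [hU] with q' hq'
  have := (h q (mem_of_mem_nhds hU) q' hq' q' hq').2
  linarith

theorem Da.aqq {a : Q → Q → Q → ℝ} {ω : E5 → E5 → ℝ} (hD : Da p a ω) (q : Q) : a q q q = 0 :=
  (A2.diag (hD.alt q)).self_of_nhds

theorem Da.FC {a : Q → Q → Q → ℝ} {ω : E5 → E5 → ℝ} (hD : Da p a ω) (q : Q) : FC p ω q := by
  intro y hy
  obtain ⟨U, hU, h⟩ := hD.d y
  refine ⟨U, hU, fun z hz w hw v hv hz' hw' hv' => ?_⟩
  rw [← h z hz w hw v hv]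
  show a (p z) (p w) (p v) = 0
  rw [hz', hw', hv', Da.aqq hD q]

theorem Da.FS {a : Q → Q → Q → ℝ} {ω : E5 → E5 → ℝ} (hD : Da p a ω) (q : Q) : FS p ω q := by
  obtain ⟨K, hK, h⟩ := hD.sup
  refine ⟨K, hK, fun y hy hyK => ?_⟩
  obtain ⟨U, hU, h⟩ := h y hyK
  exact ⟨U, hU, fun z hz w hw _ _ => h z hz w hw⟩

/-- over a fixed point every cochain of `Da` is exact -/
theorem Da.fixed {Φ : ℝ → E5 → E5} (hF : Fl Φ p) {a : Q → Q → Q → ℝ} {ω : E5 → E5 → ℝ}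
    (hD : Da p a ω) (x : E5) (hx : ∀ t, Φ t x = x) : FE p ω (p x) := by
  have hfib : ∀ y, p y = p x → y = x := by
    intro y hy
    obtain ⟨t, ht⟩ := (hF.fib x y).1 hy.symm
    rw [← ht, hx t]
  refine ⟨fun _ => 0, ⟨∅, isCompact_empty, fun _ _ _ => rfl⟩, fun y hy => ⟨univ, univ_mem, ?_⟩⟩
  intro z _ w _ hz hw
  rw [hfib z hz, hfib w hw]
  obtain ⟨U, hU, h⟩ := hD.d x
  have hx' := mem_of_mem_nhds hU
  have h1 : a (p x) (p x) (p x) = dd ω x x x := h x hx' x hx' x hx'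
  rw [Da.aqq hD (p x)] at h1
  unfold dd at h1
  show ω x x = 0 - 0
  linarith

/-- the corrected cochain is closed over `q` -/
theorem Da.closed {a : Q → Q → Q → ℝ} {ω : E5 → E5 → ℝ} (hp : Continuous p) (hD : Da p a ω)
    (y : E5) : C1 (fun z w => ω z w - a (p y) (p z) (p w)) y := by
  obtain ⟨U, hU, h⟩ := hD.d y
  obtain ⟨V, hV, h2⟩ := hD.c2 (p y)
  refine ⟨U ∩ p ⁻¹' V, inter_mem hU (hp.continuousAt.preimage_mem_nhds hV), ?_⟩
  intro z hz w hw v hv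
  have h1 : a (p z) (p w) (p v) = dd ω z w v := h z hz.1 w hw.1 v hv.1
  have h3 := h2 (p y) (mem_of_mem_nhds hV) (p z) hz.2 (p w) hw.2 (p v) hv.2
  unfold dd at h1 ⊢
  linarith

/-- it vanishes near infinity if `q` is a line -/
theorem Da.zero {a : Q → Q → Q → ℝ} {ω : E5 → E5 → ℝ} (hp : Continuous p) (hD : Da p a ω)
    (q : Q) (hq : ¬ Cp p q) : ∃ K : Set E5, IsCompact K ∧ ∃ B ∈ 𝓝 q, ∀ y, y ∉ K → p y ∈ B →
      Z1 (fun z w => ω z w - a q (p z) (p w)) y := by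
  obtain ⟨K, hK, hsup⟩ := hD.sup
  obtain ⟨V, hV, hz⟩ := hD.van q hq
  refine ⟨K, hK, interior V, interior_mem_nhds.2 hV, fun y hy hyB => ?_⟩
  obtain ⟨U, hU, h⟩ := hsup y hy
  have hB : p ⁻¹' interior V ∈ 𝓝 y :=
    hp.continuousAt.preimage_mem_nhds (isOpen_interior.mem_nhds hyB)
  refine ⟨U ∩ p ⁻¹' interior V, inter_mem hU hB, fun z hz' w hw => ?_⟩
  show ω z w - a q (p z) (p w) = 0
  rw [h z hz'.1 w hw.1, hz q (mem_of_mem_nhds hV) (p z) (interior_subset hz'.2) (p w)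
    (interior_subset hw.2)]
  ring

end

/-- LG for `ω - p^*η_q - κ c` -/
theorem loc (hL : S_LG) (Q : Type) [MetricSpace Q] [CompactSpace Q] (Φ : ℝ → E5 → E5) (p : E5 → Q)
    (hF : Fl Φ p) (a : Q → Q → Q → ℝ) (ω : E5 → E5 → ℝ) (hD : Da p a ω) (q : Q) (c : E5 → E5 → ℝ)
    (κ : ℝ) (B : Set Q) (hB : B ∈ 𝓝 q) (hc1 : ∀ y, p y ∈ B → C1 c y)
    (hc2 : ∃ K : Set E5, IsCompact K ∧ ∀ y, y ∉ K → p y ∈ B → Z1 c y)
    (h : FE p (fun y z => ω y z - κ * c y z) q) :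
    ∀ᶠ q' in 𝓝 q, FE p (fun y z => ω y z - κ * c y z) q' := by
  set e : E5 → E5 → ℝ := fun z w => (ω z w - a q (p z) (p w)) - κ * c z w with he
  have h1 : ∀ y, p y = q → C1 e y := by
    intro y hy
    obtain ⟨U, hU, hU'⟩ := Da.closed hF.pcont hD y
    obtain ⟨V, hV, hV'⟩ := hc1 y (hy ▸ mem_of_mem_nhds hB)
    refine ⟨U ∩ V, inter_mem hU hV, fun z hz w hw v hv => ?_⟩
    have e1 := hU' z hz.1 w hw.1 v hv.1
    have e2 := hV' z hz.2 w hw.2 v hv.2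
    rw [hy] at e1
    unfold dd at e1 e2 ⊢
    simp only [he]
    linear_combination e1 - κ * e2
  have h2 : Cp p q ∨ ∃ K : Set E5, IsCompact K ∧ ∃ B ∈ 𝓝 q, ∀ y, y ∉ K → p y ∈ B → Z1 e y := by
    by_cases hq : Cp p q
    · exact Or.inl hq
    · right
      obtain ⟨K, hK, B', hB', h3⟩ := Da.zero hF.pcont hD q hq
      obtain ⟨K', hK', h4⟩ := hc2
      refine ⟨K ∪ K', hK.union hK', B ∩ B', inter_mem hB hB', fun y hy hyB => ?_⟩
      rw [mem_union, not_or] at hy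
      obtain ⟨U, hU, hU'⟩ := h3 y hy.1 hyB.2
      obtain ⟨V, hV, hV'⟩ := h4 y hy.2 hyB.1
      refine ⟨U ∩ V, inter_mem hU hV, fun z hz w hw => ?_⟩
      have e1 := hU' z hz.1 w hw.1
      have e2 := hV' z hz.2 w hw.2
      simp only [he]
      simp only at e1
      rw [e1, e2]
      ring
  have h3 : FE p e q := FE.congr h (fun y z hy hz => by
    simp only [he]
    rw [hy, hz, Da.aqq hD q]
    ring)
  obtain ⟨B', hB', g, ⟨K, hK, hgK⟩, hg⟩ := hL Q Φ p hF q e h1 h2 h3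
  filter_upwards [hB', A2.diag (hD.alt q)] with q' hq' haq
  refine ⟨g, ⟨K, hK, fun y hy hyK => hgK y (hy ▸ hq') hyK⟩, fun y hy => ?_⟩
  obtain ⟨U, hU, hU'⟩ := hg y (hy ▸ hq')
  refine ⟨U, hU, fun z hz w hw hz' hw' => ?_⟩
  have e1 := hU' z hz w hw
  simp only [he] at e1
  rw [hz', hw', haq] at e1
  show ω z w - κ * c z w = g w - g z
  linarith

theorem t_ALL (hL : S_LG) (hR : S_REF) (hK : S_KAP) : S_ALL := by
  intro Q _ _ _ Φ p hF a ω hD q₀ hq₀ q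
  have hz : ∀ κ : ℝ, (fun y z : E5 => ω y z - κ * (0 : ℝ)) = ω := by
    intro κ
    funext y z
    ring
  have hopen : IsOpen {q : Q | FE p ω q} := by
    rw [isOpen_iff_mem_nhds]
    intro q hq
    have h1 := loc hL Q Φ p hF a ω hD q (fun _ _ => 0) 0 univ univ_mem
      (fun y _ => ⟨univ, univ_mem, fun _ _ _ _ _ _ => by unfold dd; ring⟩)
      ⟨∅, isCompact_empty, fun y _ _ => ⟨univ, univ_mem, fun _ _ _ _ => rfl⟩⟩
      (by rw [hz]; exact hq)
    rw [hz] at h1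
    exact h1
  have hclosed : IsOpen {q : Q | FE p ω q}ᶜ := by
    rw [isOpen_iff_mem_nhds]
    intro q hq
    have hq' : ¬ FE p ω q := hq
    obtain ⟨x, hx⟩ := hF.psurj q
    subst hx
    have hnf : ∃ t, Φ t x ≠ x := by
      by_contra hcon
      push Not at hcon
      exact hq' (Da.fixed hF hD x hcon)
    obtain ⟨B, hB, c, hc1, hc2, hc3⟩ := hR Q Φ p hF x hnf
    have hBx : p x ∈ B := mem_of_mem_nhds hB
    have hFC : FC p c (p x) := by
      intro y hy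
      obtain ⟨U, hU, h⟩ := hc1 y (hy ▸ hBx)
      exact ⟨U, hU, fun z hz w hw v hv _ _ _ => h z hz w hw v hv⟩
    have hFS : FS p c (p x) := by
      obtain ⟨K, hK, h⟩ := hc2
      refine ⟨K, hK, fun y hy hyK => ?_⟩
      obtain ⟨U, hU, h⟩ := h y hyK (hy ▸ hBx)
      exact ⟨U, hU, fun z hz w hw _ _ => h z hz w hw⟩
    obtain ⟨κ, hκ⟩ := hK Q Φ p hF (p x) c ω hFC hFS (Da.FC hD _) (Da.FS hD _) (hc3 _ hBx)
    have hκ0 : κ ≠ 0 := by
      rintro rfl
      apply hq'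
      exact FE.congr hκ (fun y z _ _ => by ring)
    have h1 := loc hL Q Φ p hF a ω hD (p x) c κ B hB hc1 hc2 hκ
    filter_upwards [h1, hB] with q' hq1 hq2
    intro hq3
    apply hc3 q' hq2
    have h2 := FE.lin hq3 hq1 κ⁻¹ (-κ⁻¹)
    exact FE.congr h2 (fun y z _ _ => by
      field_simp
      ring)
  have hcl : IsClopen {q : Q | FE p ω q} := ⟨isOpen_compl_iff.1 hclosed, hopen⟩
  rcases isClopen_iff.1 hcl with h | h
  · exact absurd hq₀ (by
      intro h'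
      have : q₀ ∈ ({q : Q | FE p ω q} : Set Q) := h'
      rw [h] at this
      exact this)
  · have : q ∈ ({q : Q | FE p ω q} : Set Q) := by rw [h]; exact mem_univ q
    exact this

end Run7.h116.FL
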