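import Mathlib
import Pool.Agent.Run7.h404.FL.Iface
import Pool.Agent.Run7.h116.FL.ALL

/-!
# Project FL, piece MAIN: `b₂ ≤ 1`
-/

set_option autoImplicit false
set_option linter.unusedVariables false

namespace Run7.h116.FL

open Set Topology Filter Run7.h404.FL

section

variable {Q : Type} [MetricSpace Q] {p : E5 → Q}

theorem C2.corr {a : Q → Q → Q → ℝ} (η : Q → Q → ℝ) {q : Q} (h : C2 a q) :
    C2 (fun x y z => a x y z - dd η x y z) q := by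
  obtain ⟨U, hU, h⟩ := h
  refine ⟨U, hU, fun y hy z hz w hw v hv => ?_⟩
  have := h y hy z hz w hw v hv
  unfold dd
  linarith

theorem A2.corr {a : Q → Q → Q → ℝ} (η : Q → Q → ℝ) (hη : ∀ x y, η y x = -η x y) {q : Q}
    (h : A2 a q) : A2 (fun x y z => a x y z - dd η x y z) q := by
  obtain ⟨U, hU, h⟩ := h
  refine ⟨U, hU, fun y hy z hz w hw => ?_⟩
  have := h y hy z hz w hw
  have e1 := hη y z
  have e2 := hη z w
  constructor
  · have h1 := this.1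
    unfold dd
    linarith
  · have h1 := this.2
    unfold dd
    linarith

theorem D2.van {a : Q → Q → Q → ℝ} (η : Q → Q → ℝ) {q : Q} (h : D2 η a q) :
    Z2 (fun x y z => a x y z - dd η x y z) q := by
  obtain ⟨U, hU, h⟩ := h
  refine ⟨U, hU, fun y hy z hz w hw => ?_⟩
  have := h y hy z hz w hw
  show a y z w - dd η y z w = 0
  linarith

/-- linear combinations of the situation `Da` -/
theorem Da.lin {a a' : Q → Q → Q → ℝ} {ω ω' : E5 → E5 → ℝ} (h : Da p a ω) (h' : Da p a' ω')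
    (s t : ℝ) : Da p (fun x y z => s * a x y z + t * a' x y z) (fun x y => s * ω x y + t * ω' x y) where
  c2 q := by
    obtain ⟨U, hU, h1⟩ := h.c2 q
    obtain ⟨V, hV, h2⟩ := h'.c2 q
    refine ⟨U ∩ V, inter_mem hU hV, fun y hy z hz w hw v hv => ?_⟩
    have e1 := h1 y hy.1 z hz.1 w hw.1 v hv.1
    have e2 := h2 y hy.2 z hz.2 w hw.2 v hv.2
    simp only
    linear_combination s * e1 + t * e2
  alt q := by
    obtain ⟨U, hU, h1⟩ := h.alt q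
    obtain ⟨V, hV, h2⟩ := h'.alt q
    refine ⟨U ∩ V, inter_mem hU hV, fun y hy z hz w hw => ?_⟩
    have e1 := h1 y hy.1 z hz.1 w hw.1
    have e2 := h2 y hy.2 z hz.2 w hw.2
    simp only
    constructor
    · rw [e1.1, e2.1]; ring
    · rw [e1.2, e2.2]; ring
  van q hq := by
    obtain ⟨U, hU, h1⟩ := h.van q hq
    obtain ⟨V, hV, h2⟩ := h'.van q hq
    refine ⟨U ∩ V, inter_mem hU hV, fun y hy z hz w hw => ?_⟩
    simp only
    rw [h1 y hy.1 z hz.1 w hw.1, h2 y hy.2 z hz.2 w hw.2]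
    ring
  d x := by
    obtain ⟨U, hU, h1⟩ := h.d x
    obtain ⟨V, hV, h2⟩ := h'.d x
    refine ⟨U ∩ V, inter_mem hU hV, fun y hy z hz w hw => ?_⟩
    have e1 : a (p y) (p z) (p w) = dd ω y z w := h1 y hy.1 z hz.1 w hw.1
    have e2 : a' (p y) (p z) (p w) = dd ω' y z w := h2 y hy.2 z hz.2 w hw.2
    simp only
    rw [e1, e2]
    unfold dd
    ring
  sup := by
    obtain ⟨K, hK, h1⟩ := h.sup
    obtain ⟨K', hK', h2⟩ := h'.sup
    refine ⟨K ∪ K', hK.union hK', fun x hx => ?_⟩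
    rw [mem_union, not_or] at hx
    obtain ⟨U, hU, h1⟩ := h1 x hx.1
    obtain ⟨V, hV, h2⟩ := h2 x hx.2
    refine ⟨U ∩ V, inter_mem hU hV, fun y hy z hz => ?_⟩
    show s * ω y z + t * ω' y z = 0
    rw [h1 y hy.1 z hz.1, h2 y hy.2 z hz.2]
    ring

end

theorem t_MAIN (hB : S_BETA) (hC : S_CS) (hR : S_REF) (hK : S_KAP) (hA : S_ALL) (hD : S_DES) :
    S_MAIN := by
  intro Q _ _ _ Φ p hF a₁ a₂ hc1 ha1 hc2 ha2
  obtain ⟨η₁, hη₁, hd₁⟩ := hB Q Φ p hF a₁ hc1 ha1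
  obtain ⟨η₂, hη₂, hd₂⟩ := hB Q Φ p hF a₂ hc2 ha2
  obtain ⟨ω₁, h1⟩ := hC Q Φ p hF (fun x y z => a₁ x y z - dd η₁ x y z) (fun q => C2.corr η₁ (hc1 q))
    (fun q => A2.corr η₁ hη₁ (ha1 q)) (fun q hq => D2.van η₁ (hd₁ q hq))
  obtain ⟨ω₂, h2⟩ := hC Q Φ p hF (fun x y z => a₂ x y z - dd η₂ x y z) (fun q => C2.corr η₂ (hc2 q))
    (fun q => A2.corr η₂ hη₂ (ha2 q)) (fun q hq => D2.van η₂ (hd₂ q hq))
  have key : ∃ s t : ℝ, (s ≠ 0 ∨ t ≠ 0) ∧ FE p (fun y z => s * ω₁ y z + t * ω₂ y z) (p 0) := by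
    by_cases hfix : ∀ t, Φ t 0 = 0
    · refine ⟨1, 0, Or.inl one_ne_zero, ?_⟩
      exact FE.congr (Da.fixed hF h1 0 hfix) (fun y z _ _ => by ring)
    · push Not at hfix
      obtain ⟨B, hBn, c, hc1, hc2, hc3⟩ := hR Q Φ p hF 0 hfix
      have hBx : p 0 ∈ B := mem_of_mem_nhds hBn
      have hFC : FC p c (p 0) := by
        intro y hy
        obtain ⟨U, hU, h⟩ := hc1 y (hy ▸ hBx)
        exact ⟨U, hU, fun z hz w hw v hv _ _ _ => h z hz w hw v hv⟩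
      have hFS : FS p c (p 0) := by
        obtain ⟨K, hK, h⟩ := hc2
        refine ⟨K, hK, fun y hy hyK => ?_⟩
        obtain ⟨U, hU, h⟩ := h y hyK (hy ▸ hBx)
        exact ⟨U, hU, fun z hz w hw _ _ => h z hz w hw⟩
      obtain ⟨κ₁, hκ₁⟩ := hK Q Φ p hF (p 0) c ω₁ hFC hFS (Da.FC h1 _) (Da.FS h1 _) (hc3 _ hBx)
      obtain ⟨κ₂, hκ₂⟩ := hK Q Φ p hF (p 0) c ω₂ hFC hFS (Da.FC h2 _) (Da.FS h2 _) (hc3 _ hBx)
      by_cases h0 : κ₁ = 0
      · refine ⟨1, 0, Or.inl one_ne_zero, ?_⟩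
        exact FE.congr hκ₁ (fun y z _ _ => by rw [h0]; ring)
      · refine ⟨κ₂, -κ₁, Or.inr (neg_ne_zero.2 h0), ?_⟩
        exact FE.congr (FE.lin hκ₁ hκ₂ κ₂ (-κ₁)) (fun y z _ _ => by ring)
  obtain ⟨s, t, hst, hFE⟩ := key
  have h3 := Da.lin h1 h2 s t
  have h4 := hA Q Φ p hF _ _ h3 (p 0) hFE
  obtain ⟨ζ, hζ⟩ := hD Q Φ p hF _ _ h3 h4
  refine ⟨s, t, fun x y => ζ x y + s * η₁ x y + t * η₂ x y, hst, fun q => ?_⟩
  obtain ⟨U, hU, h⟩ := hζ q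
  refine ⟨U, hU, fun y hy z hz w hw => ?_⟩
  have e := h y hy z hz w hw
  simp only at e ⊢
  unfold dd at e ⊢
  linear_combination e

end Run7.h116.FL
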